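import Pool.Agent.H44.FB.Basics

/-!
# The injective part for structures with local completions: allowed colours (row ALW)
-/

set_option autoImplicit false

namespace Pool.Agent.H67.FB

open Pool.Agent.H68.BP Pool.Agent.H58.SF Pool.Agent.H53.NR
open Pool.Agent.H53.GC (arP relP strOn sigOf)
open Pool.Agent.H53.GR (Ps Dm)
open Pool.Agent.H53.GM (Connected Avoids Val Cols DmG)
open Pool.Agent.H53.GX (FmX)
open Pool.Agent.H57.AR (tp ty Ty)
open Pool.Agent.H57.EQ (Cx)
open Pool.Agent.H57.SO (fib sigF SF)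
open Pool.Agent.H57.LH (SS vs c0 Blind NCB Cor Prs tfL SyL)
open Pool.Agent.H44.KR Pool.Agent.H44.FB
open Function Classical

namespace ALW

variable {V : Type} {ρ σ : Sig} {𝔸 : Str σ V} {𝔹 : Str ρ V}

/-- exchange of the elements with types in a finite set of blind types -/
theorem swap' {n : ℕ} (t : Fin n → Fin ρ.m → Prop) (x y : Fin n → V)
    (hx : ∀ a, ty 𝔹 (x a) = t a) (hy : ∀ a, ty 𝔹 (y a) = t a) (l : Fin σ.m)
    (K : Fin (σ.ar l) → Fin n) (h : 𝔸 l (fun a => x (K a)))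
    (T : Finset (Fin ρ.m → Prop)) :
    𝔸 l (fun a => if t (K a) ∈ Bl 𝔸 𝔹 ∧ t (K a) ∈ T then y (K a) else x (K a)) := by
  have hz : ∀ (T : Finset (Fin ρ.m → Prop)) (a : Fin n),
      ty 𝔹 (if t a ∈ Bl 𝔸 𝔹 ∧ t a ∈ T then y a else x a) = t a := by
    intro T a
    split_ifs
    · exact hy a
    · exact hx a
  induction T using Finset.induction_on with
  | empty =>
    have e : (fun a => if t (K a) ∈ Bl 𝔸 𝔹 ∧ t (K a) ∈ (∅ : Finset (Fin ρ.m → Prop)) then
        y (K a) else x (K a)) = fun a => x (K a) := by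
      funext a
      rw [if_neg]
      rintro ⟨-, h'⟩
      exact absurd h' (Finset.notMem_empty _)
    exact (congrArg (𝔸 l) e).mpr h
  | insert s T hs ih =>
    by_cases hsB : s ∈ Bl 𝔸 𝔹
    · refine hsB.a l _ _ (fun a => ?_) ih
      by_cases hts : t (K a) = s
      · right
        exact ⟨(hz T (K a)).trans hts, (hz (insert s T) (K a)).trans hts⟩
      · left
        have e : (t (K a) ∈ insert s T) ↔ t (K a) ∈ T := by
          rw [Finset.mem_insert]
          exact ⟨fun h' => h'.resolve_left hts, Or.inr⟩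
        simp only [e]
    · have e : (fun a => if t (K a) ∈ Bl 𝔸 𝔹 ∧ t (K a) ∈ insert s T then y (K a) else x (K a)) =
          fun a => if t (K a) ∈ Bl 𝔸 𝔹 ∧ t (K a) ∈ T then y (K a) else x (K a) := by
        funext a
        have e : (t (K a) ∈ Bl 𝔸 𝔹 ∧ t (K a) ∈ insert s T) ↔
            (t (K a) ∈ Bl 𝔸 𝔹 ∧ t (K a) ∈ T) := by
          rw [Finset.mem_insert]
          constructor
          · rintro ⟨h1, h2 | h2⟩
            · exact absurd (h2 ▸ h1) hsB
            · exact ⟨h1, h2⟩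
          · rintro ⟨h1, h2⟩
            exact ⟨h1, Or.inr h2⟩
        simp only [e]
      exact (congrArg (𝔸 l) e).mpr ih

theorem swap (m : ℕ) {n : ℕ} (t : Fin n → Fin ρ.m → Prop) (x y : Fin n → V)
    (hx : ∀ a, ty 𝔹 (x a) = t a) (hy : ∀ a, ty 𝔹 (y a) = t a) :
    ∀ (l : Option (Fin σ.m)) (K : Fin (arP σ m l) → Fin n),
      relP 𝔸 m l (fun a => x (K a)) → ∀ T : Finset (Fin ρ.m → Prop),
    relP 𝔸 m l (fun a => if t (K a) ∈ Bl 𝔸 𝔹 ∧ t (K a) ∈ T then y (K a) else x (K a))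
  | none, _, _, _ => trivial
  | some l, K, h, T => swap' t x y hx hy l K h T

theorem relP_tyi (ht : Tyi 𝔸 𝔹) (m : ℕ) : ∀ (l : Option (Fin σ.m)) (u v : Fin (arP σ m l) → V),
    tp 𝔹 v = tp 𝔹 u → relP 𝔸 m l u → relP 𝔸 m l v
  | none, _, _, _, _ => trivial
  | some l, u, v, h, hu => ht l u v hu h

theorem core (ht : Tyi 𝔸 𝔹) (m : ℕ) {n : ℕ} (t : Fin n → Fin ρ.m → Prop) (κ : Str ρ (Fin n))
    (x y : Fin n → V)
    (hx1 : ∀ a, ty 𝔹 (x a) = t a) (hx2 : ∀ a b, x a = x b → a = b ∨ t a ∈ Bl 𝔸 𝔹)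
    (hx3 : ∀ (l : Fin ρ.m) (z : Fin (ρ.ar l) → Fin n), (∀ i, t (z i) ∉ Bl 𝔸 𝔹) →
      (𝔹 l (fun i => x (z i)) ↔ κ l z))
    (hy1 : ∀ a, ty 𝔹 (y a) = t a) (hy2 : ∀ a b, y a = y b → a = b ∨ t a ∈ Bl 𝔸 𝔹)
    (hy3 : ∀ (l : Fin ρ.m) (z : Fin (ρ.ar l) → Fin n), (∀ i, t (z i) ∉ Bl 𝔸 𝔹) →
      (𝔹 l (fun i => y (z i)) ↔ κ l z))
    (l : Option (Fin σ.m)) (K : Fin (arP σ m l) → Fin n)
    (h : relP 𝔸 m l (fun a => x (K a))) : relP 𝔸 m l (fun a => y (K a)) := by
  have h1 := swap m t x y hx1 hy1 l K h Finset.univ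
  set x' : Fin n → V := fun a => if t a ∈ Bl 𝔸 𝔹 then y a else x a with hx'
  have hB' : ∀ a, t a ∈ Bl 𝔸 𝔹 → x' a = y a := fun a ha => if_pos ha
  have hN' : ∀ a, t a ∉ Bl 𝔸 𝔹 → x' a = x a := fun a ha => if_neg ha
  have hT : ∀ a, ty 𝔹 (x' a) = t a := by
    intro a
    by_cases ha : t a ∈ Bl 𝔸 𝔹
    · rw [hB' a ha]
      exact hy1 a
    · rw [hN' a ha]
      exact hx1 a
  have e1 : (fun a => if t (K a) ∈ Bl 𝔸 𝔹 ∧ t (K a) ∈ (Finset.univ : Finset (Fin ρ.m → Prop)) then
      y (K a) else x (K a)) = fun a => x' (K a) := by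
    funext a
    simp only [hx', Finset.mem_univ, and_true]
  rw [e1] at h1
  have key : tp 𝔹 y = tp 𝔹 x' := by
    refine Prod.ext ?_ ?_
    · funext a b
      refine propext ?_
      show y a = y b ↔ x' a = x' b
      by_cases ha : t a ∈ Bl 𝔸 𝔹 <;> by_cases hb : t b ∈ Bl 𝔸 𝔹
      · rw [hB' a ha, hB' b hb]
      · have hne : t a ≠ t b := fun h => hb (h ▸ ha)
        constructor
        · intro h
          exact absurd ((hy1 a).symm.trans ((congrArg (ty 𝔹) h).trans (hy1 b))) hne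
        · intro h
          exact absurd ((hT a).symm.trans ((congrArg (ty 𝔹) h).trans (hT b))) hne
      · have hne : t a ≠ t b := fun h => ha (h ▸ hb)
        constructor
        · intro h
          exact absurd ((hy1 a).symm.trans ((congrArg (ty 𝔹) h).trans (hy1 b))) hne
        · intro h
          exact absurd ((hT a).symm.trans ((congrArg (ty 𝔹) h).trans (hT b))) hne
      · rw [hN' a ha, hN' b hb]
        constructor
        · intro h
          rw [(hy2 a b h).resolve_right ha]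
        · intro h
          rw [(hx2 a b h).resolve_right ha]
    · funext l' z
      refine propext ?_
      show 𝔹 l' (fun i => y (z i)) ↔ 𝔹 l' (fun i => x' (z i))
      by_cases hz : ∀ i, t (z i) ∉ Bl 𝔸 𝔹
      · have e2 : (fun i => x' (z i)) = fun i => x (z i) := funext fun i => hN' _ (hz i)
        rw [e2, hx3 l' z hz, hy3 l' z hz]
      · push Not at hz
        obtain ⟨i₀, hi₀⟩ := hz
        constructor
        · intro h
          have h2 : ∀ j, y (z j) = y (z i₀) := hi₀.b l' (fun i => y (z i)) h i₀ (hy1 _)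
          have e2 : (fun i => x' (z i)) = fun i => y (z i) := by
            funext j
            refine hB' _ ?_
            have h3 : t (z j) = t (z i₀) :=
              (hy1 _).symm.trans ((congrArg (ty 𝔹) (h2 j)).trans (hy1 _))
            rw [h3]
            exact hi₀
          rw [e2]
          exact h
        · intro h
          have h2 : ∀ j, x' (z j) = x' (z i₀) := hi₀.b l' (fun i => x' (z i)) h i₀ (hT _)
          have e2 : (fun i => x' (z i)) = fun i => y (z i) := by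
            funext j
            refine hB' _ ?_
            have h3 : t (z j) = t (z i₀) :=
              (hT _).symm.trans ((congrArg (ty 𝔹) (h2 j)).trans (hT _))
            rw [h3]
            exact hi₀
          rw [← e2]
          exact h
  exact relP_tyi ht m l _ _ (comp_of_tp key K) h1

end ALW

theorem pf_ALW : T_ALW := by
  intro V σ ρ 𝔸 𝔹 _ ht m c x y hx hnx hny
  obtain ⟨h1, _, _, h4⟩ := hx
  exact ⟨h1, hny.1, hny.2.1, ALW.core ht m _ (co 𝔹 σ m c).1.2 x y hnx.1 hnx.2.1 hnx.2.2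
    hny.1 hny.2.1 hny.2.2 _ _ h4⟩

end Pool.Agent.H67.FB
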